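import Pool.Agent.H91.EL.Targets

/-!
# Row QFX of elm_modules: one point `q` for many `x`
-/

set_option autoImplicit false

namespace Pool.Agent.H20.EL

open Pool.Agent.H83.G Pool.Agent.H91.EL

/-- two planks through two points with different `w` have close directions -/
theorem close_dir {ρ D r : ℝ} {η η' : E 2} {q x : Z 2} (hρ : 1 ≤ ρ) (hD : 1 ≤ D) (hr : 0 < r)
    (h1 : ‖η‖ ≤ 3) (h2 : ‖η'‖ ≤ 3) (l1 : ‖Lo η ρ⁻¹ (q - x)‖ ≤ D) (l2 : ‖Lo η' ρ⁻¹ (q - x)‖ ≤ D)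
    (hw : r * ρ ^ 2 ≤ |q.2.2 - x.2.2|) : ‖η - η'‖ ≤ D / (r * ρ) := by
  obtain ⟨e, he, -, hey, -, -⟩ := dec hρ hD h1 l1
  obtain ⟨e', he', -, hey', -, -⟩ := dec hρ hD h2 l2
  set w := q.2.2 - x.2.2 with hwdef
  have hy : (q - x).2.1 = w • ((-2 : ℝ) • η) + e.2.1 := by
    rw [he]
    simp [ll]
  have hy' : (q - x).2.1 = w • ((-2 : ℝ) • η') + e'.2.1 := by
    rw [he']
    simp [ll]
  have h3 : (2 * w) • (η - η') = e.2.1 - e'.2.1 := by
    have h4 : w • ((-2 : ℝ) • η) + e.2.1 = w • ((-2 : ℝ) • η') + e'.2.1 := hy.symm.trans hy'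
    have h5 : e.2.1 - e'.2.1 = w • ((-2 : ℝ) • η') - w • ((-2 : ℝ) • η) := by
      rw [sub_eq_sub_iff_add_eq_add, add_comm, h4]
    rw [h5, smul_smul, smul_smul, ← smul_sub, smul_sub, smul_sub]
    have e1 : w * (-2 : ℝ) = -(2 * w) := by ring
    rw [e1, neg_smul, neg_smul]
    abel
  have h6 : 2 * |w| * ‖η - η'‖ ≤ 2 * (D * ρ) := by
    have h7 : ‖(2 * w) • (η - η')‖ = 2 * |w| * ‖η - η'‖ := by
      rw [norm_smul, Real.norm_eq_abs, abs_mul, abs_two]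
    rw [← h7, h3]
    refine (norm_sub_le _ _).trans ?_
    linarith
  have h8 : r * ρ ^ 2 * ‖η - η'‖ ≤ D * ρ := by
    have h9 := mul_le_mul_of_nonneg_right hw (norm_nonneg (η - η'))
    linarith
  rw [le_div_iff₀ (by positivity)]
  have hρ0 : 0 < ρ := by linarith
  have h10 : (‖η - η'‖ * (r * ρ)) * ρ ≤ D * ρ := by
    calc (‖η - η'‖ * (r * ρ)) * ρ = r * ρ ^ 2 * ‖η - η'‖ := by ring
      _ ≤ D * ρ := h8
  exact le_of_mul_le_mul_right h10 hρ0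

theorem alg1 (D CN r S : ℝ) (hr : 0 < r) :
    2 * D ^ 2 * (CN * D ^ 3 / r ^ 2 * S) * r ^ 2 = 2 * CN * D ^ 5 * S := by
  field_simp

theorem alg2 (r ρ D : ℝ) (hρ : 0 < ρ) (hr : 0 < r) : D / (r * ρ) * ρ = D / r := by
  field_simp

theorem alg3 (r ρ : ℝ) (hρ : 0 < ρ) : ρ⁻¹ * (r * ρ) = r := by
  field_simp

/-- the final algebra -/
theorem alg4 {C CM CN D ρ r g0 S n : ℝ} (hC : 2 * (CM * CN) < C) (hCM : 1 ≤ CM) (hCN : 1 ≤ CN)
    (hD : 0 < D) (hρ : 0 < ρ) (hr : 0 < r) (hg0 : 0 < g0) (hn : n ≤ CM * D ^ 5 * ρ ^ 7)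
    (hmain : g0 * ρ ^ 5 * r ^ 2 ≤ 2 * CN * D ^ 5 * S)
    (hsum : C * D ^ 10 * ρ ^ 2 * S ≤ n * (g0 * r ^ 2)) : False := by
  have hSpos : 0 < S := by
    have h1 : 0 < g0 * ρ ^ 5 * r ^ 2 := by positivity
    have h2 : 0 < 2 * CN * D ^ 5 * S := lt_of_lt_of_le h1 hmain
    have h3 : 0 < 2 * CN * D ^ 5 := by positivity
    exact (pos_iff_pos_of_mul_pos h2).1 h3
  have h5 : C * D ^ 10 * ρ ^ 2 * S ≤ (CM * D ^ 5 * ρ ^ 7) * (g0 * r ^ 2) :=
    hsum.trans (mul_le_mul_of_nonneg_right hn (by positivity))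
  have h6 : (CM * D ^ 5 * ρ ^ 7) * (g0 * r ^ 2) ≤
      CM * D ^ 5 * ρ ^ 2 * (2 * CN * D ^ 5 * S) := by
    calc (CM * D ^ 5 * ρ ^ 7) * (g0 * r ^ 2) =
        CM * D ^ 5 * ρ ^ 2 * (g0 * ρ ^ 5 * r ^ 2) := by ring
      _ ≤ CM * D ^ 5 * ρ ^ 2 * (2 * CN * D ^ 5 * S) :=
        mul_le_mul_of_nonneg_left hmain (by positivity)
  have h7 : C * (D ^ 10 * ρ ^ 2 * S) ≤ (2 * (CM * CN)) * (D ^ 10 * ρ ^ 2 * S) := by
    calc C * (D ^ 10 * ρ ^ 2 * S) = C * D ^ 10 * ρ ^ 2 * S := by ring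
      _ ≤ CM * D ^ 5 * ρ ^ 2 * (2 * CN * D ^ 5 * S) := h5.trans h6
      _ = (2 * (CM * CN)) * (D ^ 10 * ρ ^ 2 * S) := by ring
  have h8 : C ≤ 2 * (CM * CN) := le_of_mul_le_mul_right h7 (by positivity)
  linarith

theorem alg5 {C D r : ℝ} (hC1 : 1 ≤ C) (hD : 1 ≤ D) (hr : 0 < r) (h : C * D ^ 4 * r ≤ 1) :
    r ≤ 1 := by
  have h1 : 1 ≤ C * D ^ 4 := by
    have h2 : 1 ≤ D ^ 4 := one_le_pow₀ hD
    calc (1 : ℝ) = 1 * 1 := by ring
      _ ≤ C * D ^ 4 := mul_le_mul hC1 h2 (by norm_num) (by linarith)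
  have h3 := mul_le_mul_of_nonneg_right h1 hr.le
  linarith

open scoped Classical in
/-- double counting of the triples `(x, p, q)` -/
theorem count {ι : Type} (G X' : Finset (Z 2)) (PP : Z 2 → Finset ι) (Q : Z 2 → ι → Z 2 → Prop)
    (J : Z 2 → Z 2 → Prop) (D r ρ CN : ℝ) (hD : 0 ≤ D) (hr : 0 < r) (hCN : 0 ≤ CN)
    (low : ∀ x ∈ G, ρ ^ 5 ≤ 2 * D ^ 2 * ∑ p ∈ PP x, ((X'.filter fun q => Q x p q).card : ℝ))
    (up : ∀ x ∈ G, ∀ q ∈ X', (∃ p ∈ PP x, Q x p q) → J q x ∧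
      (((PP x).filter fun p => Q x p q).card : ℝ) ≤ CN * D ^ 3 / r ^ 2) :
    (G.card : ℝ) * ρ ^ 5 * r ^ 2 ≤ 2 * CN * D ^ 5 *
      ∑ q ∈ X', ((G.filter fun x => J q x).card : ℝ) := by
  have up2 : ∀ x ∈ G, ∑ p ∈ PP x, ((X'.filter fun q => Q x p q).card : ℝ) ≤
      CN * D ^ 3 / r ^ 2 * ∑ q ∈ X', (if J q x then (1 : ℝ) else 0) := by
    intro x hx
    have h1 : ∀ p ∈ PP x, ((X'.filter fun q => Q x p q).card : ℝ) =
        ∑ q ∈ X', (if Q x p q then (1 : ℝ) else 0) := by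
      intro p _
      rw [← Finset.sum_filter, Finset.sum_const, nsmul_eq_mul, mul_one]
    rw [Finset.sum_congr rfl h1, Finset.sum_comm, Finset.mul_sum]
    apply Finset.sum_le_sum
    intro q hq
    by_cases hJq : ∃ p ∈ PP x, Q x p q
    · obtain ⟨hJt, hcard⟩ := up x hx q hq hJq
      rw [if_pos hJt, mul_one, ← Finset.sum_filter, Finset.sum_const, nsmul_eq_mul, mul_one]
      exact hcard
    · have h4 : ∑ p ∈ PP x, (if Q x p q then (1 : ℝ) else 0) = 0 := by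
        apply Finset.sum_eq_zero
        intro p hp
        rw [if_neg]
        intro h
        exact hJq ⟨p, hp, h⟩
      rw [h4]
      have h5 : 0 ≤ CN * D ^ 3 / r ^ 2 := by positivity
      apply mul_nonneg h5
      split_ifs
      · exact zero_le_one
      · exact le_rfl
  have hS : ∑ x ∈ G, ∑ q ∈ X', (if J q x then (1 : ℝ) else 0) =
      ∑ q ∈ X', ((G.filter fun x => J q x).card : ℝ) := by
    rw [Finset.sum_comm]
    apply Finset.sum_congr rfl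
    intro q _
    rw [← Finset.sum_filter, Finset.sum_const, nsmul_eq_mul, mul_one]
  have h1 : ∑ x ∈ G, ρ ^ 5 ≤ ∑ x ∈ G, 2 * D ^ 2 *
      (CN * D ^ 3 / r ^ 2 * ∑ q ∈ X', (if J q x then (1 : ℝ) else 0)) := by
    apply Finset.sum_le_sum
    intro x hx
    exact (low x hx).trans (mul_le_mul_of_nonneg_left (up2 x hx) (by positivity))
  rw [Finset.sum_const, nsmul_eq_mul, ← Finset.mul_sum, ← Finset.mul_sum, hS] at h1
  have h2 := mul_le_mul_of_nonneg_right h1 (sq_nonneg r)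
  rw [alg1 D CN r _ hr] at h2
  exact h2

/-- the condition on `q` -/
def QP {ι : Type} (I : Z 2 → ι → Prop) (ρ r r' : ℝ) (a x : Z 2) (p : ι) (q : Z 2) : Prop :=
  I q p ∧ r * ρ ^ 2 ≤ |q.2.2 - x.2.2| ∧ r' * ρ ^ 4 ≤ |qQ (q - a)|

/-- `q` and `x` are joined by a plank -/
def JP {ι : Type} (P : Finset ι) (I : Z 2 → ι → Prop) (ρ r : ℝ) (q x : Z 2) : Prop :=
  ∃ p ∈ P, I x p ∧ I q p ∧ r * ρ ^ 2 ≤ |q.2.2 - x.2.2|

/-- the condition on `q` alone -/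
def XQ (ρ r' : ℝ) (a q : Z 2) : Prop := r' * ρ ^ 4 ≤ |qQ (q - a)|

open scoped Classical in
theorem main {ι : Type} {ρ D K r r' CN : ℝ} {X : Finset (Z 2)} {P : Finset ι} {η : ι → E 2}
    {I : Z 2 → ι → Prop} (hc : Conf ρ D K X P η I) (hr : 0 < r) (hr_le : r ≤ 1) (hCN : 0 ≤ CN)
    {a : Z 2} {G : Finset (Z 2)} (hGX : G ⊆ X)
    (hQ : ∀ x ∈ G, ∀ p ∈ P, I x p → ρ ^ 4 ≤ 2 * D * ((X.filter fun q => QP I ρ r r' a x p q).card : ℝ))
    (hN : ∀ z ∈ X, ∀ (η₀ : E 2) (s : ℝ), ρ⁻¹ ≤ s →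
      ((PC P I η z η₀ s).card : ℝ) ≤ CN * D * (s * ρ) ^ 2) :
    (G.card : ℝ) * ρ ^ 5 * r ^ 2 ≤ 2 * CN * D ^ 5 *
      ∑ q ∈ X.filter (fun q => XQ ρ r' a q), ((G.filter fun x => JP P I ρ r q x).card : ℝ) := by
  have hD := hc.one_le_D
  have hD0 : 0 < D := by linarith
  have hρ : 1 ≤ ρ := hc.one_le_D.trans (hc.D_le_K.trans hc.K_le)
  have hρ0 : 0 < ρ := by linarith
  have hs : ρ⁻¹ ≤ D / (r * ρ) := by
    rw [le_div_iff₀ (by positivity), alg3 r ρ hρ0]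
    linarith
  apply count G (X.filter fun q => XQ ρ r' a q) (PZ P I) (QP I ρ r r' a) (JP P I ρ r) D r ρ CN
    hD0.le hr hCN
  · intro x hx
    have h1 : ∀ p ∈ PZ P I x, ρ ^ 4 ≤ 2 * D *
        ((((X.filter fun q => XQ ρ r' a q).filter fun q => QP I ρ r r' a x p q).card : ℕ) : ℝ) := by
      intro p hp
      have hp2 := Finset.mem_filter.1 hp
      refine (hQ x hx p hp2.1 hp2.2).trans (mul_le_mul_of_nonneg_left ?_ (by linarith))
      rw [Nat.cast_le]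
      apply Finset.card_le_card
      intro q hq
      rw [Finset.mem_filter] at hq
      rw [Finset.mem_filter, Finset.mem_filter]
      exact ⟨⟨hq.1, hq.2.2.2⟩, hq.2⟩
    have h2 := Finset.sum_le_sum h1
    rw [Finset.sum_const, nsmul_eq_mul, ← Finset.mul_sum] at h2
    have h3 := hc.h2 x (hGX hx)
    generalize ∑ p ∈ PZ P I x, ((((X.filter fun q => XQ ρ r' a q).filter fun q =>
      QP I ρ r r' a x p q).card : ℕ) : ℝ) = S at h2 ⊢
    have h4 : ρ ^ 5 = ρ * ρ ^ 4 := by ring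
    rw [h4]
    refine (mul_le_mul_of_nonneg_right h3 (by positivity)).trans ?_
    rw [mul_assoc]
    refine (mul_le_mul_of_nonneg_left h2 hD0.le).trans (le_of_eq ?_)
    ring
  · rintro x hx q hq ⟨p₀, hp₀, hq₀⟩
    have hp₀2 := Finset.mem_filter.1 hp₀
    have hq1 := (Finset.mem_filter.1 hq).1
    refine ⟨⟨p₀, hp₀2.1, hp₀2.2, hq₀.1, hq₀.2.1⟩, ?_⟩
    have h2 := hN x (hGX hx) (η p₀) (D / (r * ρ)) hs
    rw [alg2 r ρ D hρ0 hr, div_pow] at h2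
    refine le_trans ?_ (h2.trans (le_of_eq ?_))
    · rw [Nat.cast_le]
      apply Finset.card_le_card
      intro p hp
      have hp2 := Finset.mem_filter.1 hp
      have hp3 := Finset.mem_filter.1 hp2.1
      unfold PC
      rw [Finset.mem_filter]
      refine ⟨hp3.1, hp3.2, ?_⟩
      exact close_dir hρ hD hr (hc.eta p hp3.1) (hc.eta p₀ hp₀2.1)
        (hc.h0 p hp3.1 q hq1 x (hGX hx) hp2.2.1 hp3.2)
        (hc.h0 p₀ hp₀2.1 q hq1 x (hGX hx) hq₀.1 hp₀2.2) hp2.2.2.1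
    · ring

open scoped Classical in
theorem pf_QFX (hQSE : T_QSE) (hNUM : T_NUM) (hCAN : T_CAN) : T_QFX := by
  obtain ⟨CQ, hCQ, hQ⟩ := hQSE
  obtain ⟨CM, hCM, hM⟩ := hNUM
  obtain ⟨CN, hCN, hN⟩ := hCAN
  have hCMN : 0 < CM * CN := by positivity
  have hC1 : 1 ≤ 2 * (CM * CN) + CQ + 1 := by linarith
  have hCle : CQ ≤ 2 * (CM * CN) + CQ + 1 := by linarith
  refine ⟨2 * (CM * CN) + CQ + 1, hC1, ?_⟩
  intro ι ρ D K r r' X P η I hc hr hr1 hr2 hr' hr3 a ha G hGX hGne hGa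
  have hD := hc.one_le_D
  have hD0 : 0 < D := by linarith
  have hρ : 1 ≤ ρ := hc.one_le_D.trans (hc.D_le_K.trans hc.K_le)
  have hρ0 : 0 < ρ := by linarith
  have hCQ1 : CQ * D ^ 4 * r ≤ 1 := by
    refine le_trans ?_ hr1
    exact mul_le_mul_of_nonneg_right (mul_le_mul_of_nonneg_right hCle (by positivity)) hr.le
  have hCQ2 : CQ * D ^ 5 ≤ r ^ 4 * ρ := by
    refine le_trans ?_ hr2
    exact mul_le_mul_of_nonneg_right hCle (by positivity)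
  have hCQ3 : CQ * D ^ 4 * r' ≤ r ^ 4 := by
    refine le_trans ?_ hr3
    exact mul_le_mul_of_nonneg_right (mul_le_mul_of_nonneg_right hCle (by positivity)) hr'.le
  have hr_le : r ≤ 1 := alg5 hC1 hD hr hr1
  have hmain := main (r' := r') (CN := CN) (a := a) hc hr hr_le (by linarith) hGX (by
      intro x hx p hp hxp
      have h2 := hQ ι ρ D K r r' X P η I hc hr hCQ1 hCQ2 hr' hCQ3 a ha x (hGX hx) p hp hxp
        (hGa x hx)
      refine h2.trans (mul_le_mul_of_nonneg_left ?_ (by linarith))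
      rw [Nat.cast_le]
      apply Finset.card_le_card
      intro q hq
      rw [Finset.mem_filter] at hq ⊢
      exact hq) (hN ι ρ D K X P η I hc)
  by_contra hcon
  push Not at hcon
  have hlt : ∀ q ∈ X.filter (fun q => XQ ρ r' a q),
      (2 * (CM * CN) + CQ + 1) * D ^ 10 * ρ ^ 2 *
        ((G.filter fun x => JP P I ρ r q x).card : ℝ) ≤ (G.card : ℝ) * r ^ 2 := by
    intro q hq
    have hq2 := Finset.mem_filter.1 hq
    refine le_trans (mul_le_mul_of_nonneg_left ?_ (by positivity)) (hcon q hq2.1 hq2.2).le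
    rw [Nat.cast_le]
    apply Finset.card_le_card
    intro x hx
    rw [Finset.mem_filter] at hx ⊢
    exact hx
  have hsum := Finset.sum_le_sum hlt
  rw [← Finset.mul_sum, Finset.sum_const, nsmul_eq_mul] at hsum
  have hXX : (((X.filter (fun q => XQ ρ r' a q)).card : ℕ) : ℝ) ≤
      CM * D ^ 5 * ρ ^ 7 := by
    refine le_trans ?_ (hM ι ρ D K X P η I hc).1
    rw [Nat.cast_le]
    exact Finset.card_le_card (Finset.filter_subset _ _)
  have hG0 : (0 : ℝ) < G.card := by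
    exact_mod_cast hGne.card_pos
  exact alg4 (C := 2 * (CM * CN) + CQ + 1) (by linarith) hCM hCN hD0 hρ0 hr hG0 hXX hmain hsum

end Pool.Agent.H20.EL
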